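import Pool.Agent.Helper37.SN.All

set_option autoImplicit false

open MeasureTheory Pool.Agent.Helper37.SN in
/-- In every dimension `d ≥ 2` the sampling numbers of `W ^ r_p` in `L_q`, `1 < p < 2 < q`, decay
strictly more slowly than `m ^ (-(r - 1/p + 1/q))`, even for arbitrary nonlinear algorithms. -/
theorem Pool.Agent.Results.MP_aa31b4_an.AboveOneDimensionalRate.result :
    ∀ (𝕜 : Type) [RCLike 𝕜] (d : ℕ) (r p q : ℝ), 2 ≤ d → 1 < p → p < 2 → 2 < q → 1 / p < r →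
      Filter.Tendsto (fun m : ℕ => ENNReal.ofReal ((m : ℝ) ^ (r - 1 / p + 1 / q)) *
        samplingNumber 𝕜 d r p q m) Filter.atTop (nhds ⊤) ∧
      ∀ A : ℝ, ∃ m₀ : ℕ, ∀ m : ℕ, m₀ ≤ m →
        ∀ (x : Fin m → Fin d → UnitAddCircle) (Ψ : (Fin m → 𝕜) → (Fin d → UnitAddCircle) → 𝕜),
        (∀ v, AEStronglyMeasurable (Ψ v) (torusMeasure d)) →
        ∃ f ∈ mixedClass 𝕜 d r p, ENNReal.ofReal (A * (m : ℝ) ^ (-(r - 1 / p + 1 / q))) ≤
          eLpNorm (fun t => f t - Ψ (fun i => f (x i)) t) (ENNReal.ofReal q) (torusMeasure d) := by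
  intro 𝕜 _ d r p q hd hp1 hp2 hq hr
  exact ⟨rlk_samp all_MAIN 𝕜 d r p q hd hp1 hp2 hq hr,
    fun A => rlk_main all_MAIN 𝕜 d r p q hd hp1 hp2 hq hr A⟩
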