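import Mathlib
import Pool.Agent.Helper37.SN.FinalDefs
import Pool.Agent.Helper37.SU.All

set_option autoImplicit false

/-!
Upper bound for the sampling numbers of the classes `W ^ r_p` in `L_q`, `1 < p < 2 < q`:
for `d ≥ 2` the rate `(m⁻¹ (log m) ^ (d - 1)) ^ (r - 1/p + 1/q)` of sparse grids is not optimal.
-/

namespace Pool.Agent.Results.MP_aa31b4_an.BelowSparseGridRate

open Pool.Agent.Helper37.SN

theorem kappa_lt_one {p q r : ℝ} (hp1 : 1 < p) (hp2 : p < 2) (hq : 2 < q) (hr : 1 / p < r) :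
    (r - 1 / p + 2 * max (1 - 1 / p) (1 / q)) / (r - 1 / p + 1) < 1 := by
  have h1 : 1 / 2 < 1 / p := one_div_lt_one_div_of_lt (by linarith) hp2
  have h2 : 1 / q < 1 / 2 := one_div_lt_one_div_of_lt (by norm_num) hq
  have h3 : max (1 - 1 / p) (1 / q) < 1 / 2 := max_lt (by linarith) h2
  rw [div_lt_one (by linarith)]
  linarith

/-- For `d ≥ 2`, `1 < p < 2 < q < ∞`, `r > 1/p` put
`κ₁ = (r - 1/p + 2 max (1 - 1/p) (1/q)) / (r - 1/p + 1)`. Then `κ₁ < 1`, and for every `κ > κ₁`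
there is a constant `C` with
`ϱ_m (W ^ r_p, L_q) ≤ C (m⁻¹ (log m) ^ ((d - 1) κ)) ^ (r - 1/p + 1/q)` for all `m ≥ 2`. -/
theorem result (𝕜 : Type) [RCLike 𝕜] (d : ℕ) (p q r : ℝ) (hd : 2 ≤ d)
    (hp1 : 1 < p) (hp2 : p < 2) (hq : 2 < q) (hr : 1 / p < r) :
    (r - 1 / p + 2 * max (1 - 1 / p) (1 / q)) / (r - 1 / p + 1) < 1 ∧
    ∀ κ : ℝ, (r - 1 / p + 2 * max (1 - 1 / p) (1 / q)) / (r - 1 / p + 1) < κ →
      ∃ C : ℝ, ∀ m : ℕ, 2 ≤ m → samplingNumber 𝕜 d r p q m ≤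
        ENNReal.ofReal
          (C * ((m : ℝ)⁻¹ * Real.log m ^ (((d : ℝ) - 1) * κ)) ^ (r - 1 / p + 1 / q)) := by
  refine ⟨kappa_lt_one hp1 hp2 hq hr, fun κ hκ => ?_⟩
  obtain ⟨C, -, hC⟩ := Pool.Agent.Helper37.SU.all_FIN 𝕜 d p q r κ hd hp1 hp2 hq hr hκ
  exact ⟨C, hC⟩

end Pool.Agent.Results.MP_aa31b4_an.BelowSparseGridRate
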